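import Mathlib
import Pool.Agent.K3h22.EX.Stm

/-! EX project (brick SOLVE for helper22). -/

set_option autoImplicit false

namespace Pool.Agent.K3h67.EX

open MvPolynomial Filter Topology Metric Set Pool.Agent.K3h22.EX

/-- the linear form `∑ b, eval ζ (pderiv b q) dz_b` -/
noncomputable def dlin {s : ℕ} (q : MvPolynomial (Fin s) ℂ) (ζ : Fin s → ℂ) :
    (Fin s → ℂ) →L[ℂ] ℂ :=
  ∑ b, eval ζ (pderiv b q) • (ContinuousLinearMap.proj b : (Fin s → ℂ) →L[ℂ] ℂ)

theorem dlin_apply {s : ℕ} (q : MvPolynomial (Fin s) ℂ) (ζ v : Fin s → ℂ) :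
    dlin q ζ v = ∑ b, eval ζ (pderiv b q) * v b := by
  simp [dlin]

/-- strict derivative of a polynomial map -/
theorem hasStrict {s : ℕ} (q : MvPolynomial (Fin s) ℂ) (ζ : Fin s → ℂ) :
    HasStrictFDerivAt (fun v : Fin s → ℂ => eval v q) (dlin q ζ) ζ := by
  induction q using MvPolynomial.induction_on with
  | C a =>
    have e : (fun v : Fin s → ℂ => eval v (C a)) = fun _ => a := by ext; simp
    rw [e]
    refine (hasStrictFDerivAt_const (𝕜 := ℂ) (a : ℂ) ζ).congr_fderiv ?_
    apply ContinuousLinearMap.ext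
    intro v
    rw [dlin_apply]; simp
  | add p q hp hq =>
    have e : (fun v : Fin s → ℂ => eval v (p + q)) = (fun v => eval v p) + fun v => eval v q := by
      ext; simp
    rw [e]
    refine (hp.add hq).congr_fderiv ?_
    apply ContinuousLinearMap.ext
    intro v
    rw [dlin_apply, ContinuousLinearMap.add_apply, dlin_apply, dlin_apply]
    simp [add_mul, Finset.sum_add_distrib]
  | mul_X p i hp =>
    have e : (fun v : Fin s → ℂ => eval v (p * X i)) =
        (fun v => eval v p) * (ContinuousLinearMap.proj i : (Fin s → ℂ) →L[ℂ] ℂ) := by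
      ext; simp
    rw [e]
    refine (hp.mul (ContinuousLinearMap.hasStrictFDerivAt
      (ContinuousLinearMap.proj i : (Fin s → ℂ) →L[ℂ] ℂ) (x := ζ))).congr_fderiv ?_
    apply ContinuousLinearMap.ext
    intro v
    rw [dlin_apply, ContinuousLinearMap.add_apply, ContinuousLinearMap.smul_apply,
      ContinuousLinearMap.smul_apply, dlin_apply]
    simp only [Derivation.leibniz, pderiv_X, smul_eq_mul, map_add, map_mul, eval_X,
      ContinuousLinearMap.proj_apply, add_mul, Finset.sum_add_distrib, Finset.mul_sum]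
    congr 1
    · rw [Finset.sum_eq_single i]
      · simp
      · intro b _ hb
        simp [Pi.single_apply, hb, Ne.symm hb]
      · simp
    · refine Finset.sum_congr rfl fun b _ => ?_
      ring

theorem diffable {s : ℕ} (q : MvPolynomial (Fin s) ℂ) :
    Differentiable ℂ (fun v : Fin s → ℂ => eval v q) :=
  fun ζ => (hasStrict q ζ).hasFDerivAt.differentiableAt

theorem t_SOLVE : S_TOP → S_BC → S_SOLVE := by
  intro hTOP hBC s Φ ζ ε hε hre hdet
  classical
  set F : (Fin s → ℂ) → (Fin s → ℂ) := fun v a => eval v (top (Φ a)) with hF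
  have hd : ∀ a, 1 ≤ (Φ a).totalDegree := by
    intro a
    by_contra h
    have h0 : (Φ a).totalDegree = 0 := by omega
    apply hdet
    apply Matrix.det_eq_zero_of_row_eq_zero a
    intro b
    simp only [jac, Matrix.of_apply]
    have : top (Φ a) = C (coeff 0 (Φ a)) := by
      unfold top; rw [h0]; exact homogeneousComponent_zero _
    rw [this]; simp
  choose C hC0 hC using fun a => hTOP s (Φ a) (‖ζ‖ + ε)
  set C1 : ℝ := ∑ a, C a with hC1def
  have hC1 : ∀ a, C a ≤ C1 := fun a =>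
    Finset.single_le_sum (f := C) (fun a _ => hC0 a) (Finset.mem_univ a)
  have hC1nn : 0 ≤ C1 := Finset.sum_nonneg fun a _ => hC0 a
  set M := jac (fun a => top (Φ a)) ζ with hM
  set A : (Fin s → ℂ) →L[ℂ] (Fin s → ℂ) :=
    ContinuousLinearMap.pi fun a => dlin (top (Φ a)) ζ with hAdef
  have hA : ∀ v, A v = M.mulVec v := by
    intro v
    funext a
    change dlin (top (Φ a)) ζ v = _
    rw [dlin_apply]
    simp [hM, jac, Matrix.mulVec, dotProduct]
  set B : (Fin s → ℂ) →L[ℂ] (Fin s → ℂ) := (Matrix.toLin' M⁻¹).toContinuousLinearMap with hBdef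
  have hB : ∀ v, B v = M⁻¹.mulVec v := by
    intro v; simp [hBdef]
  have hAB : ∀ v, A (B v) = v := by
    intro v
    rw [hA, hB, Matrix.mulVec_mulVec, Matrix.mul_nonsing_inv _ (Ne.isUnit hdet), Matrix.one_mulVec]
  set N : NNReal := ‖B‖₊ + 1 with hN
  have hNpos : 0 < N := by positivity
  let rinv : A.NonlinearRightInverse :=
    { toFun := B
      nnnorm := N
      bound' := by
        intro y
        refine (B.le_opNorm y).trans ?_
        have : ‖B‖ ≤ (N : ℝ) := by rw [hN]; push_cast; linarith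
        exact mul_le_mul_of_nonneg_right this (norm_nonneg _)
      right_inv' := hAB }
  have hSF : HasStrictFDerivAt F A ζ := by
    rw [hasStrictFDerivAt_pi']
    intro a
    exact (hasStrict (top (Φ a)) ζ).congr_fderiv (by
      apply ContinuousLinearMap.ext; intro v; simp [hAdef])
  set Kn : NNReal := (8 * N)⁻¹ with hKn
  have hKnpos : 0 < Kn := by positivity
  set K : ℝ := (Kn : ℝ) with hK
  have hKpos : 0 < K := by exact_mod_cast hKnpos
  have hKN : (N : ℝ)⁻¹ = 8 * K := by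
    rw [hK, hKn]; push_cast; 
    have : (0:ℝ) < N := by exact_mod_cast hNpos
    field_simp
  obtain ⟨S, hS, happ⟩ := hSF.approximates_deriv_on_nhds (c := Kn) (Or.inr hKnpos)
  obtain ⟨ρ, hρ, hρS⟩ : ∃ ρ : ℝ, 0 < ρ ∧ closedBall ζ ρ ⊆ S ∩ ball ζ (ε / 4) := by
    have : S ∩ ball ζ (ε / 4) ∈ 𝓝 ζ := inter_mem hS (ball_mem_nhds _ (by positivity))
    obtain ⟨ρ, hρ, h⟩ := (nhds_basis_closedBall.mem_iff).1 this
    exact ⟨ρ, hρ, h⟩
  refine ⟨min (ε * K / 100) (K * ρ), by positivity,
    1 + 100 * C1 / (ε * K) + (2 * Real.pi + C1) / (K * ρ), ?_, ?_⟩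
  · have : 0 ≤ 100 * C1 / (ε * K) := by positivity
    have : 0 ≤ (2 * Real.pi + C1) / (K * ρ) := by positivity
    linarith
  intro R hR L hL hLre
  set κ : ℝ := min (ε * K / 100) (K * ρ) with hκ
  have hκ1 : κ ≤ ε * K / 100 := min_le_left _ _
  have hκ2 : κ ≤ K * ρ := min_le_right _ _
  have hκ0 : 0 < κ := by positivity
  have p1 : 0 ≤ 100 * C1 / (ε * K) := by positivity
  have p2 : 0 ≤ (2 * Real.pi + C1) / (K * ρ) := by positivity
  have hR1 : 1 ≤ R := by linarith
  have hR0 : 0 < R := by linarith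
  have hRa : 100 * C1 / (ε * K) ≤ R := by linarith
  have hRb : (2 * Real.pi + C1) / (K * ρ) ≤ R := by linarith
  have q1 : 100 * (C1 / R) / ε ≤ K := by
    rw [div_le_iff₀ (by positivity)] at hRa
    rw [div_le_iff₀ hε, mul_div_assoc', div_le_iff₀ hR0]
    nlinarith
  have q2 : (2 * Real.pi + C1) / R ≤ K * ρ := by
    rw [div_le_iff₀ (by positivity)] at hRb
    rw [div_le_iff₀ hR0]
    nlinarith
  have q3 : 100 * κ / ε ≤ K := by
    rw [div_le_iff₀ hε]
    nlinarith
  set H : Fin s → (Fin s → ℂ) → ℂ := fun a v =>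
    L a v - (eval (sc R v) (Φ a) - (R : ℂ) ^ (Φ a).totalDegree * eval v (top (Φ a))) with hH
  have hsc : Differentiable ℂ (fun v : Fin s → ℂ => sc R v) := by
    unfold sc
    fun_prop
  have hHd : ∀ a, DifferentiableOn ℂ (H a) (ball ζ ε) := by
    intro a
    refine (hL a).sub (Differentiable.differentiableOn ?_)
    exact ((diffable (Φ a)).comp hsc).sub ((diffable (top (Φ a))).const_mul _)
  have hvn : ∀ v ∈ ball ζ ε, ‖v‖ ≤ ‖ζ‖ + ε := by
    intro v hv
    rw [mem_ball, dist_eq_norm] at hv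
    have : ‖v‖ ≤ ‖v - ζ‖ + ‖ζ‖ := by simpa using norm_add_le (v - ζ) ζ
    linarith
  have hHre : ∀ a, ∀ v ∈ ball ζ ε, |(H a v).re| ≤ (κ + C1 / R) * R ^ (Φ a).totalDegree := by
    intro a v hv
    have h1 := hLre a v hv
    have h2 := hC a R hR1 v (hvn v hv)
    have h3 := (Complex.abs_re_le_norm _).trans h2
    have h4 : C a * R ^ (Φ a).totalDegree / R ≤ C1 / R * R ^ (Φ a).totalDegree := by
      rw [div_mul_eq_mul_div]
      gcongr
      exact hC1 a
    rw [hH]
    simp only [Complex.sub_re] at h3 ⊢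
    calc _ ≤ |(L a v).re| + |((eval (sc R v)) (Φ a)).re -
          ((R : ℂ) ^ (Φ a).totalDegree * eval v (top (Φ a))).re| := abs_sub _ _
      _ ≤ _ := by rw [add_mul]; linarith
  have hHlip : ∀ a, ∀ v ∈ ball ζ (ε / 4), ∀ w ∈ ball ζ (ε / 4),
      ‖H a v - H a w‖ ≤ 100 * ((κ + C1 / R) * R ^ (Φ a).totalDegree) / ε * ‖v - w‖ := by
    intro a
    exact hBC s ζ ε _ (H a) hε (by positivity) (hHd a) (hHre a)
  set G : (Fin s → ℂ) → (Fin s → ℂ) := fun v a =>
    F v a - ((R : ℂ) ^ (Φ a).totalDegree)⁻¹ * H a v with hG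
  have hRd : ∀ a, 0 < R ^ (Φ a).totalDegree := fun a => by positivity
  have hRn : ∀ a, ‖((R : ℂ) ^ (Φ a).totalDegree)⁻¹‖ = (R ^ (Φ a).totalDegree)⁻¹ := by
    intro a
    rw [norm_inv, norm_pow, Complex.norm_real, Real.norm_of_nonneg hR0.le]
  have hGapp : ApproximatesLinearOn G A (closedBall ζ ρ) (3 * Kn) := by
    intro v hv w hw
    have hv' := hρS hv
    have hw' := hρS hw
    have hF1 := happ v hv'.1 w hw'.1
    push_cast
    rw [pi_norm_le_iff_of_nonneg (by positivity)]
    intro a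
    have e : (G v - G w - A (v - w)) a = (F v - F w - A (v - w)) a -
        ((R : ℂ) ^ (Φ a).totalDegree)⁻¹ * (H a v - H a w) := by
      simp only [hG, Pi.sub_apply]; ring
    rw [e]
    refine (norm_sub_le _ _).trans ?_
    have h1 : ‖(F v - F w - A (v - w)) a‖ ≤ K * ‖v - w‖ := (norm_le_pi_norm _ a).trans hF1
    have h2 : ‖((R : ℂ) ^ (Φ a).totalDegree)⁻¹ * (H a v - H a w)‖ ≤ 2 * K * ‖v - w‖ := by
      rw [norm_mul, hRn]
      have h3 := hHlip a v hv'.2 w hw'.2
      calc _ ≤ (R ^ (Φ a).totalDegree)⁻¹ *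
            (100 * ((κ + C1 / R) * R ^ (Φ a).totalDegree) / ε * ‖v - w‖) := by gcongr
        _ = (100 * κ / ε + 100 * (C1 / R) / ε) * ‖v - w‖ := by
            have := (hRd a).ne'
            field_simp
        _ ≤ _ := by gcongr; linarith
    linarith
  have hsurj := hGapp.surjOn_closedBall_of_nonlinearRightInverse rinv hρ.le (subset_refl _)
  have hrad : 4 * K * ρ ≤ (((rinv.nnnorm : ℝ))⁻¹ - ((3 * Kn : NNReal) : ℝ)) * ρ := by
    have : (rinv.nnnorm : ℝ) = (N : ℝ) := rfl
    rw [this, hKN]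
    push_cast
    nlinarith
  choose n hn using fun a => (⟨round (((R ^ (Φ a).totalDegree) * (F ζ a).im - (H a ζ).im) /
    (2 * Real.pi)), abs_sub_round _⟩ : ∃ n : ℤ, |((R ^ (Φ a).totalDegree) * (F ζ a).im -
      (H a ζ).im) / (2 * Real.pi) - n| ≤ 1 / 2)
  set τ : Fin s → ℂ := fun a => 2 * Real.pi * Complex.I * (n a : ℂ) /
    (R : ℂ) ^ (Φ a).totalDegree with hτ
  have hζ : ζ ∈ ball ζ ε := mem_ball_self hε
  have hτmem : τ ∈ closedBall (G ζ) ((((rinv.nnnorm : ℝ))⁻¹ - ((3 * Kn : NNReal) : ℝ)) * ρ) := by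
    rw [mem_closedBall, dist_eq_norm]
    refine le_trans ?_ hrad
    rw [pi_norm_le_iff_of_nonneg (by positivity)]
    intro a
    have hRc : ((R : ℂ) ^ (Φ a).totalDegree) ≠ 0 := pow_ne_zero _ (by exact_mod_cast hR0.ne')
    have e : (τ - G ζ) a = ((R : ℂ) ^ (Φ a).totalDegree)⁻¹ *
        (2 * Real.pi * Complex.I * (n a : ℂ) - ((R ^ (Φ a).totalDegree : ℝ) : ℂ) * F ζ a
          + H a ζ) := by
      simp only [hG, hτ, Pi.sub_apply]
      push_cast
      field_simp
      ring
    rw [e, norm_mul, hRn]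
    have hr : (2 * Real.pi * Complex.I * (n a : ℂ) - ((R ^ (Φ a).totalDegree : ℝ) : ℂ) * F ζ a
          + H a ζ).re = (H a ζ).re := by
      have h0 : (F ζ a).re = 0 := hre a
      simp only [Complex.add_re, Complex.sub_re, Complex.re_ofReal_mul, h0]
      simp
    have hi : (2 * Real.pi * Complex.I * (n a : ℂ) - ((R ^ (Φ a).totalDegree : ℝ) : ℂ) * F ζ a
          + H a ζ).im = 2 * Real.pi * n a - (R ^ (Φ a).totalDegree) * (F ζ a).im + (H a ζ).im := by
      simp only [Complex.add_im, Complex.sub_im, Complex.im_ofReal_mul]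
      simp
    have hi' : |2 * Real.pi * n a - (R ^ (Φ a).totalDegree) * (F ζ a).im + (H a ζ).im| ≤
        Real.pi := by
      have h5 := hn a
      have hpi := Real.pi_pos
      have h6 : 2 * Real.pi * n a - (R ^ (Φ a).totalDegree) * (F ζ a).im + (H a ζ).im =
          - (2 * Real.pi) * (((R ^ (Φ a).totalDegree) * (F ζ a).im - (H a ζ).im) /
            (2 * Real.pi) - n a) := by
        field_simp
        ring
      rw [h6, abs_mul, abs_neg, abs_of_pos (by positivity : 0 < 2 * Real.pi)]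
      nlinarith
    have hnorm : ‖(2 * Real.pi * Complex.I * (n a : ℂ) - ((R ^ (Φ a).totalDegree : ℝ) : ℂ) * F ζ a
          + H a ζ)‖ ≤ (κ + C1 / R) * R ^ (Φ a).totalDegree + Real.pi := by
      refine (Complex.norm_le_abs_re_add_abs_im _).trans ?_
      rw [hr, hi]
      exact add_le_add (hHre a ζ hζ) hi'
    have hRR : R ≤ R ^ (Φ a).totalDegree := by
      calc R = R ^ 1 := (pow_one R).symm
        _ ≤ _ := pow_le_pow_right₀ hR1 (hd a)
    calc _ ≤ (R ^ (Φ a).totalDegree)⁻¹ * ((κ + C1 / R) * R ^ (Φ a).totalDegree + Real.pi) := by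
          gcongr
      _ = κ + C1 / R + Real.pi / R ^ (Φ a).totalDegree := by
          have := (hRd a).ne'
          field_simp
      _ ≤ κ + C1 / R + Real.pi / R := by gcongr
      _ ≤ κ + (2 * Real.pi + C1) / R := by
          rw [add_div, mul_div_assoc]
          have : 0 ≤ Real.pi / R := by positivity
          linarith
      _ ≤ 4 * K * ρ := by nlinarith
  obtain ⟨v, hv, hGv⟩ := hsurj hτmem
  have hv4 := (hρS hv).2
  refine ⟨v, ball_subset_ball (by linarith) hv4, fun a => ⟨n a, ?_⟩⟩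
  have hRc : ((R : ℂ) ^ (Φ a).totalDegree) ≠ 0 := pow_ne_zero _ (by exact_mod_cast hR0.ne')
  have h7 := congrFun hGv a
  simp only [hG, hτ, hH, hF] at h7
  field_simp at h7
  linear_combination h7

end Pool.Agent.K3h67.EX
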